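import Pool.Agent.Y6.F.Stm

/-!
# Job EF-BTC: the bootstrap (helper475)
-/

open Set Filter Topology
open scoped ComplexConjugate

set_option autoImplicit false

namespace Pool.Agent.Y475.EF.BTC

open Pool.Agent.Y6.F

open Pool.Agent.Y6.M (qd mq Kz Ker Adm Dat TSol Wt KSol cX cY Uth εc x0 Mains MDat Z3 C3 Coef dt cr
  cj kc nsq len adv leray Kop IsField IsSol energy enstr Md hs br Frame cK sgz)

/-- the continuity argument -/
theorem boot {I : Type} (z : I → ℝ → ℂ) (B : I → ℝ → ℝ) (O : Set I) (F : Set I) (hF : F.Finite)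
    (θ : ℝ) (hθ : 0 ≤ θ) (hz : ∀ i, ContinuousOn (z i) (Icc 0 θ))
    (hB0 : ∀ i ∈ O, ∀ t ∈ Icc 0 θ, 0 < B i t)
    (hBm : ∀ i ∈ O, ∀ s ∈ Icc 0 θ, ∀ t ∈ Icc 0 θ, s ≤ t → B i s ≤ B i t)
    (hzF : ∀ i ∉ F, ∀ t ∈ Icc 0 θ, z i t = 0) (h0 : ∀ i ∈ O, z i 0 = 0)
    (key : ∀ t ∈ Icc 0 θ, (∀ s ∈ Icc 0 t, ∀ i ∈ O, ‖z i s‖ ≤ B i s) →
      ∀ i ∈ O, ‖z i t‖ ≤ B i t / 2) :
    ∀ t ∈ Icc 0 θ, ∀ i ∈ O, ‖z i t‖ ≤ B i t := by
  set S : Set ℝ := {t | ∀ s ∈ Icc 0 t, s ≤ θ → ∀ i ∈ O, ‖z i s‖ ≤ B i s} with hS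
  have hcl : IsClosed (S ∩ Icc 0 θ) := by
    rw [← isSeqClosed_iff_isClosed]
    intro u a hu ha
    have haI : a ∈ Icc 0 θ := isClosed_Icc.mem_of_tendsto ha (Eventually.of_forall fun n => (hu n).2)
    refine ⟨?_, haI⟩
    intro s hs hsθ i hi
    rcases lt_or_eq_of_le hs.2 with h1 | h1
    · have h2 : ∀ᶠ n in atTop, s < u n := ha.eventually (lt_mem_nhds h1)
      obtain ⟨n, hn⟩ := h2.exists
      exact (hu n).1 s ⟨hs.1, hn.le⟩ hsθ i hi
    · subst h1
      by_cases h3 : ∃ n, s ≤ u n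
      · obtain ⟨n, hn⟩ := h3
        exact (hu n).1 s ⟨hs.1, hn⟩ hsθ i hi
      · push Not at h3
        have h4 : Tendsto (fun n => ‖z i (u n)‖) atTop (𝓝 ‖z i s‖) := by
          refine Tendsto.norm ?_
          have h5 := (hz i s haI).tendsto
          exact h5.comp (tendsto_nhdsWithin_iff.2 ⟨ha, Eventually.of_forall fun n => (hu n).2⟩)
        refine le_of_tendsto h4 (Eventually.of_forall fun n => ?_)
        exact ((hu n).1 (u n) ⟨(hu n).2.1, le_rfl⟩ (hu n).2.2 i hi).trans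
          (hBm i hi _ (hu n).2 _ haI (h3 n).le)
  have h0S : (0 : ℝ) ∈ S := by
    intro s hs _ i hi
    have hs0 : s = 0 := le_antisymm hs.2 hs.1
    subst hs0
    rw [h0 i hi, norm_zero]
    exact (hB0 i hi 0 ⟨le_rfl, hθ⟩).le
  have hsub : Icc 0 θ ⊆ S := by
    refine hcl.Icc_subset_of_forall_mem_nhdsWithin h0S ?_
    rintro x ⟨hxS, hx⟩
    have hxI : x ∈ Icc 0 θ := ⟨hx.1, hx.2.le⟩
    have hk := key x hxI (fun s hs i hi => hxS s hs (hs.2.trans hxI.2) i hi)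
    have h1 : ∀ i ∈ F, i ∈ O → ∀ᶠ u in 𝓝 x, u ∈ Icc 0 θ → ‖z i u‖ < B i x := by
      intro i _ hi
      have h2 : ‖z i x‖ < B i x := by
        have := hk i hi
        have := hB0 i hi x hxI
        linarith
      have h3 := (hz i x hxI).norm
      have h4 := h3.tendsto.eventually (gt_mem_nhds h2)
      exact eventually_nhdsWithin_iff.1 h4
    have h2 : ∀ᶠ u in 𝓝 x, ∀ i ∈ F, i ∈ O → u ∈ Icc 0 θ → ‖z i u‖ < B i x := by
      rw [Filter.eventually_all_finite hF]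
      intro i hiF
      by_cases hi : i ∈ O
      · filter_upwards [h1 i hiF hi] with u hu _ using hu
      · exact Eventually.of_forall fun u h => absurd h hi
    obtain ⟨δ, hδ, hball⟩ := Metric.eventually_nhds_iff.1 h2
    have h3 : Ioo x (x + δ) ∈ 𝓝[>] x := Ioo_mem_nhdsGT (by linarith)
    refine mem_of_superset h3 ?_
    intro y hy s hs hsθ i hi
    by_cases hsx : s ≤ x
    · exact hxS s ⟨hs.1, hsx⟩ hsθ i hi
    · push Not at hsx
      have hsI : s ∈ Icc 0 θ := ⟨hs.1, hsθ⟩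
      by_cases hiF : i ∈ F
      · have h4 := hball (show dist s x < δ by
          rw [Real.dist_eq, abs_of_pos (by linarith)]
          linarith [hs.2, hy.2]) i hiF hi hsI
        exact h4.le.trans (hBm i hi x hxI s hsI hsx.le)
      · rw [hzF i hiF s hsI, norm_zero]
        exact (hB0 i hi s hsI).le
  intro t ht i hi
  exact hsub ht t ⟨ht.1, le_rfl⟩ ht.2 i hi

theorem Ty_lt (i : Md) (p : Md × Md) : Ty i p < 5 := by
  unfold Ty
  split_ifs <;> norm_num

theorem t_BTC : Pool.Agent.Y6.F.S_BTC := by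
  intro hLV hCODE hENV hRATE hGAP hIBP hMS hSUMS hVEC hLAT hST hKERM hDATM h hh N z hT θ hθ hCnd
  have hKer := hKERM hLV hCODE hSUMS h hh
  have hDat := (hDATM hLV).1
  obtain ⟨-, -, -, -, -, hfin, hlen, -⟩ := id hLV
  have hln : ∀ i : Md, 1 ≤ ln i ∧ ln i ^ 2 = (nsq i.1.1 : ℝ) := hCODE.2.2.2.2.1
  have hI60 : Icc (0 : ℝ) θ ⊆ Icc 0 60 := Icc_subset_Icc_right (by linarith [hθ.2])
  have hcont : ∀ i, ContinuousOn (z i) (Icc 0 θ) := by
    intro i
    by_cases hi : lvM i ≤ N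
    · intro t ht
      exact ((hT.deriv i hi t (hI60 ht)).continuousWithinAt).mono hI60
    · have : z i = fun _ => 0 := funext fun t => hT.zero i (not_le.1 hi) t
      rw [this]
      exact continuousOn_const
  have hone : ∀ i, ∀ t ∈ Icc 0 θ, ‖z i t‖ ≤ 1 := by
    intro i t ht
    have h1 := hT.energy t (hI60 ht)
    have h2 : Summable (fun a => ‖z a t‖ ^ 2) := by
      refine summable_of_hasFiniteSupport ((hfin N).subset ?_)
      intro a ha
      by_contra hc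
      apply ha
      simp [hT.zero a (not_le.1 hc) t]
    have h3 : ‖z i t‖ ^ 2 ≤ ∑' a, ‖z a t‖ ^ 2 := h2.le_tsum i (fun _ _ => by positivity)
    have h4 : ‖z i t‖ ^ 2 ≤ 1 := h3.trans h1
    exact (sq_le_one_iff₀ (norm_nonneg _)).1 h4
  obtain ⟨hAdq, hMmono, hmain⟩ := hMS hLV z θ hθ.1 hcont (fun i t ht => hT.real i t (hI60 ht)) hone hCnd
  obtain ⟨hE1, hE2, -⟩ := id hENV
  have hBpos : ∀ i ∈ {i : Md | σM i ≠ 0}, ∀ t ∈ Icc 0 θ,
      0 < (10 ^ 20 : ℝ)⁻¹ * (ln i ^ 7)⁻¹ * env (Ms z t) (ln i) := by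
    intro i _ t ht
    have h1 := ((hE1 _ (hAdq t ht)).2.2.2.2 (ln i)).1
    have h2 : 0 < ln i := lt_of_lt_of_le one_pos (hln i).1
    positivity
  have hBmono : ∀ i ∈ {i : Md | σM i ≠ 0}, ∀ s ∈ Icc 0 θ, ∀ t ∈ Icc 0 θ, s ≤ t →
      (10 ^ 20 : ℝ)⁻¹ * (ln i ^ 7)⁻¹ * env (Ms z s) (ln i) ≤
      (10 ^ 20 : ℝ)⁻¹ * (ln i ^ 7)⁻¹ * env (Ms z t) (ln i) := by
    intro i _ s hs t ht hst
    have h2 : 0 < ln i := lt_of_lt_of_le one_pos (hln i).1
    refine mul_le_mul_of_nonneg_left ?_ (by positivity)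
    exact hE2 _ _ (hAdq s hs) (hAdq t ht) (hMmono s hs t ht hst) _ h2
  have hres := boot z (fun i t => (10 ^ 20 : ℝ)⁻¹ * (ln i ^ 7)⁻¹ * env (Ms z t) (ln i))
    {i : Md | σM i ≠ 0} {i : Md | lvM i ≤ N} (hfin N) θ hθ.1 hcont hBpos hBmono
    (fun i hi t _ => hT.zero i (not_le.1 hi) t) ?_ ?_
  · intro i hi t ht
    exact hres t ht i hi
  · intro i hi
    by_cases hiN : lvM i ≤ N
    · rw [hT.init i hiN]
      exact hDat.main i hi
    · exact hT.zero i (not_le.1 hiN) 0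
  · intro t ht hP i hi
    have htI : t ∈ Icc (0 : ℝ) 1 := ⟨ht.1, ht.2.trans hθ.2⟩
    have hsub : ∀ s ∈ Icc 0 t, s ∈ Icc 0 θ := fun s hs => ⟨hs.1, hs.2.trans ht.2⟩
    have hA := hAdq t ht
    have hEt := hE1 _ hA
    have he : ∀ a, ∀ s ∈ Icc 0 t, ‖z a s‖ ≤ eF (Ms z t) a := by
      intro a s hs
      unfold eF
      split_ifs with ha
      · have h1 := hmain a ha s (hsub s hs) t ht hs.2
        have h2 := hlen a ha
        have h3 := hln a
        have hα : 0 ≤ αM (lvM a) := by unfold αM; positivity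
        have h4 : αM (lvM a) ≤ ln a := by
          refine le_of_sq_le_sq ?_ (by linarith [h3.1])
          rw [h3.2]
          exact h2.1
        have h5 : ln a ≤ 2 * αM (lvM a) := by
          refine le_of_sq_le_sq ?_ (by positivity)
          rw [h3.2]
          refine h2.2.trans ?_
          nlinarith [sq_nonneg (αM (lvM a))]
        rw [hEt.2.2.1 (lvM a) (ln a) (by linarith) (by linarith)]
        exact h1
      · exact (hP s hs a ha).trans (hBmono a ha s (hsub s hs) t ht hs.2)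
    have he0 : ∀ a, 0 ≤ eF (Ms z t) a := fun a =>
      (norm_nonneg _).trans (he a 0 ⟨le_rfl, ht.1⟩)
    have hr : ∀ a, ∀ s ∈ Icc 0 t, ‖qd (cK h) (fun b => z b s) a‖ ≤ rF (Ms z t) a := by
      intro a s hs
      obtain ⟨h1, h2⟩ := hRATE hLV hCODE hSUMS hVEC hLAT hENV h hh _ hA a
      refine le_trans ?_ h2
      have h3 : ∀ p : Md × Md, ‖cK h a p.1 p.2 * z p.1 s * z p.2 s‖ ≤
          ‖cK h a p.1 p.2‖ * eF (Ms z t) p.1 * eF (Ms z t) p.2 := by
        intro p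
        rw [norm_mul, norm_mul]
        refine mul_le_mul ?_ (he p.2 s hs) (norm_nonneg _) (mul_nonneg (norm_nonneg _) (he0 _))
        exact mul_le_mul_of_nonneg_left (he p.1 s hs) (norm_nonneg _)
      exact tsum_of_norm_bounded h1.hasSum h3
    have hD : ∀ p : Md × Md, cK h i p.1 p.2 ≠ 0 → 0 < D0 i p →
        D0 i p ≤ |SF (lvM p.1) * σM p.1 + SF (lvM p.2) * σM p.2 - SF (lvM i) * σM i| := by
      intro p hp hD0
      refine (hGAP hLV hCODE).2 i p hi ?_ hD0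
      by_contra hc
      apply hp
      unfold cK
      rw [if_neg hc]
    have hsplit : ∀ p : Md × Md, tm h (Ms z t) i p = ∑ j ∈ Finset.range 5,
        (if Ty i p = j then tm h (Ms z t) i p else 0) := by
      intro p
      rw [Finset.sum_ite_eq, if_pos (Finset.mem_range.2 (Ty_lt i p))]
    have hj : ∀ j ∈ Finset.range 5,
        Summable (fun p : Md × Md => if Ty i p = j then tm h (Ms z t) i p else 0) ∧
        ∑' p : Md × Md, (if Ty i p = j then tm h (Ms z t) i p else 0) ≤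
          (10 ^ 20)⁻¹ / 10 * (ln i ^ 7)⁻¹ * env (Ms z t) (ln i) := by
      intro j hj
      exact hST j (by have := Finset.mem_range.1 hj; omega) hLV hCODE hSUMS hVEC hLAT hENV h hh _ hA i hi
    have hHS : HasSum (fun p : Md × Md => tm h (Ms z t) i p)
        (∑ j ∈ Finset.range 5, ∑' p : Md × Md, (if Ty i p = j then tm h (Ms z t) i p else 0)) := by
      have h1 := hasSum_sum (fun j hj' => (hj j hj').1.hasSum)
      rw [show (fun p : Md × Md => tm h (Ms z t) i p) = fun p : Md × Md => ∑ j ∈ Finset.range 5,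
        (if Ty i p = j then tm h (Ms z t) i p else 0) from funext hsplit]
      exact h1
    have hle : ∑' p : Md × Md, tm h (Ms z t) i p ≤
        (10 ^ 20 : ℝ)⁻¹ * (ln i ^ 7)⁻¹ * env (Ms z t) (ln i) / 2 := by
      rw [hHS.tsum_eq]
      refine (Finset.sum_le_sum (fun j hj' => (hj j hj').2)).trans ?_
      rw [Finset.sum_const, Finset.card_range, nsmul_eq_mul]
      apply le_of_eq
      push_cast
      ring
    refine le_trans ?_ hle
    exact hIBP Md lvM br σM (cK h) SF vM N z hKer hDat hT t htI (eF (Ms z t)) (rF (Ms z t)) he hr i hi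
      (D0 i) hD hHS.summable t ⟨ht.1, le_rfl⟩

end Pool.Agent.Y475.EF.BTC
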